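import Pool.Agent.Helper53.Pq.Goals
import Pool.Agent.Helper88.NO.D12

/-!
MP_705522_gt, packet Pq-CLT: the central limit theorem for `Lf`.
-/

set_option autoImplicit false

open MeasureTheory Set Filter Topology

namespace Pool.Agent.Helper25.Pq

open Pool.Agent.Helper53.Pq
open Pool.Agent.Helper28.NO (Lf ph mu muZ)
open Pool.Agent.Helper7.Proj (Zd)

/-- auxiliary lower bound of `φ(t/√n)^n` -/
noncomputable def hh (b : ℝ) (n : ℕ) (t : ℝ) : ℝ :=
  if b * t ^ 2 ≤ n then (1 + -(b * t ^ 2) / n) ^ n else -1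

lemma hh_meas (b : ℝ) (n : ℕ) : Measurable (hh b n) := by
  unfold hh
  refine Measurable.ite ?_ (by fun_prop) measurable_const
  exact measurableSet_le (by fun_prop) measurable_const

lemma hh_le_one {b : ℝ} (hb : 0 ≤ b) {n : ℕ} (hn : 1 ≤ n) (t : ℝ) : hh b n t ≤ 1 := by
  have hn' : (0 : ℝ) < n := by exact_mod_cast hn
  unfold hh
  split_ifs with h
  · have h1 : -(b * t ^ 2) / n ≤ 0 := by
      apply div_nonpos_of_nonpos_of_nonneg _ hn'.le
      have : 0 ≤ b * t ^ 2 := by positivity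
      linarith
    have h2 : -1 ≤ -(b * t ^ 2) / n := by
      rw [le_div_iff₀ hn']
      linarith
    exact pow_le_one₀ (by linarith) (by linarith)
  · norm_num

lemma hh_bound {b : ℝ} (hb : 0 ≤ b) {n : ℕ} (hn : 1 ≤ n) (t : ℝ) :
    1 - hh b n t ≤ 4 * (1 - Real.exp (-(b * t ^ 2))) := by
  have hn' : (1 : ℝ) ≤ n := by exact_mod_cast hn
  have hn0 : (0 : ℝ) < n := by linarith
  set x : ℝ := b * t ^ 2 with hx
  have hx0 : 0 ≤ x := by positivity
  have h1 : Real.exp (-x) ≤ 1 / (1 + x) := by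
    rw [Real.exp_neg, ← one_div]
    apply one_div_le_one_div_of_le (by linarith)
    linarith [Real.add_one_le_exp x]
  have h2 : 4 * (x / (1 + x)) ≤ 4 * (1 - Real.exp (-x)) := by
    have : x / (1 + x) = 1 - 1 / (1 + x) := by
      field_simp
      ring
    rw [this]
    linarith
  refine le_trans ?_ h2
  unfold hh
  rw [← hx]
  split_ifs with h
  · have h3 : -1 ≤ -x / n := by
      rw [le_div_iff₀ hn0]
      linarith
    have h4 : 0 ≤ (1 + -x / n) ^ n := pow_nonneg (by linarith) _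
    have h5 : 1 + (n : ℝ) * (-x / n) ≤ (1 + -x / n) ^ n :=
      one_add_mul_le_pow (by linarith) n
    have h6 : (n : ℝ) * (-x / n) = -x := by
      field_simp
    rw [h6] at h5
    rw [← mul_div_assoc, le_div_iff₀ (by linarith)]
    rcases le_total x 1 with h7 | h7
    · nlinarith
    · nlinarith
  · have h7 : 1 ≤ x := by
      push Not at h
      linarith
    rw [← mul_div_assoc, le_div_iff₀ (by linarith)]
    linarith

lemma hh_tendsto (b t : ℝ) :
    Tendsto (fun n : ℕ => hh b n t) atTop (𝓝 (Real.exp (-(b * t ^ 2)))) := by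
  have h := Real.tendsto_one_add_div_pow_exp (-(b * t ^ 2))
  refine h.congr' ?_
  filter_upwards [eventually_ge_atTop ⌈b * t ^ 2⌉₊] with n hn
  have : b * t ^ 2 ≤ n := le_trans (Nat.le_ceil _) (by exact_mod_cast hn)
  unfold hh
  rw [if_pos this]

lemma int_tendsto (hc : GC0) {b : ℝ} (hb : 0 ≤ b) :
    Tendsto (fun n : ℕ => ∫ t in Ioi (0 : ℝ), (1 - hh b n t) / t ^ 2) atTop
      (𝓝 (√(Real.pi * b))) := by
  rw [← (hc.2 b hb).2]
  refine tendsto_integral_filter_of_dominated_convergence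
    (fun t => 4 * ((1 - Real.exp (-(b * t ^ 2))) / t ^ 2)) ?_ ?_ ?_ ?_
  · exact Eventually.of_forall fun n =>
      ((measurable_const.sub (hh_meas b n)).div (by fun_prop)).aestronglyMeasurable
  · filter_upwards [eventually_ge_atTop 1] with n hn
    filter_upwards with t
    rw [Real.norm_eq_abs, abs_div, abs_of_nonneg (by linarith [hh_le_one hb hn t] : 0 ≤ 1 - hh b n t),
      abs_of_nonneg (by positivity : 0 ≤ t ^ 2), ← mul_div_assoc]
    exact div_le_div_of_nonneg_right (hh_bound hb hn t) (by positivity)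
  · exact (hc.2 b hb).1.const_mul 4
  · filter_upwards with t
    exact (tendsto_const_nhds.sub (hh_tendsto b t)).div_const _

lemma int_hh (hc : GC0) {b : ℝ} (hb : 0 ≤ b) {n : ℕ} (hn : 1 ≤ n) :
    IntegrableOn (fun t => (1 - hh b n t) / t ^ 2) (Ioi 0) := by
  refine Integrable.mono' ((hc.2 b hb).1.const_mul 4)
    ((measurable_const.sub (hh_meas b n)).div (by fun_prop)).aestronglyMeasurable ?_
  filter_upwards with t
  rw [Real.norm_eq_abs, abs_div, abs_of_nonneg (by linarith [hh_le_one hb hn t] : 0 ≤ 1 - hh b n t),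
    abs_of_nonneg (by positivity : 0 ≤ t ^ 2), ← mul_div_assoc]
  exact div_le_div_of_nonneg_right (hh_bound hb hn t) (by positivity)

lemma ph_abs_le (μ : Measure ℝ) [IsProbabilityMeasure μ] (t : ℝ) : |ph μ t| ≤ 1 := by
  unfold ph
  have h := norm_integral_le_of_norm_le_const (μ := μ) (f := fun y => Real.cos (t * y)) (C := 1)
    (Eventually.of_forall fun y => by
      rw [Real.norm_eq_abs]
      exact Real.abs_cos_le_one _)
  simpa using h

lemma ph_ge (μ : Measure ℝ) [IsProbabilityMeasure μ] (h2 : Integrable (fun y : ℝ => y ^ 2) μ)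
    (t : ℝ) : 1 - (∫ y, y ^ 2 ∂μ) / 2 * t ^ 2 ≤ ph μ t := by
  unfold ph
  have e : 1 - (∫ y, y ^ 2 ∂μ) / 2 * t ^ 2 = ∫ y, (1 - t ^ 2 / 2 * y ^ 2) ∂μ := by
    rw [integral_sub (integrable_const _) (h2.const_mul _), integral_const_mul]
    simp
    ring
  rw [e]
  refine integral_mono ((integrable_const _).sub (h2.const_mul _)) ?_ fun y => ?_
  · refine Integrable.mono' (integrable_const (1 : ℝ)) (by fun_prop) ?_
    filter_upwards with y
    rw [Real.norm_eq_abs]
    exact Real.abs_cos_le_one _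
  · have := Real.one_sub_sq_div_two_le_cos (x := t * y)
    simp only
    calc 1 - t ^ 2 / 2 * y ^ 2 = 1 - (t * y) ^ 2 / 2 := by ring
      _ ≤ _ := this

lemma le_pow (μ : Measure ℝ) [IsProbabilityMeasure μ] (h2 : Integrable (fun y : ℝ => y ^ 2) μ)
    {n : ℕ} (hn : 1 ≤ n) (t : ℝ) :
    hh ((∫ y, y ^ 2 ∂μ) / 2) n t ≤ ph μ (1 / √n * t) ^ n := by
  have hn0 : (0 : ℝ) < n := by exact_mod_cast hn
  have hsq : √(n : ℝ) * √n = n := Real.mul_self_sqrt hn0.le
  have hs : 0 < √(n : ℝ) := Real.sqrt_pos.mpr hn0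
  unfold hh
  split_ifs with h
  · have h3 : -1 ≤ -((∫ y, y ^ 2 ∂μ) / 2 * t ^ 2) / n := by
      rw [le_div_iff₀ hn0]
      linarith
    refine pow_le_pow_left₀ (by linarith) ?_ n
    have := ph_ge μ h2 (1 / √n * t)
    have e : (1 / √(n : ℝ) * t) ^ 2 = t ^ 2 / n := by
      rw [mul_pow, div_pow, one_pow, sq (√(n : ℝ)), hsq]
      ring
    rw [e] at this
    calc 1 + -((∫ y, y ^ 2 ∂μ) / 2 * t ^ 2) / n = 1 - (∫ y, y ^ 2 ∂μ) / 2 * (t ^ 2 / n) := by ring
      _ ≤ _ := this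
  · have := ph_abs_le μ (1 / √n * t)
    have h4 : |ph μ (1 / √n * t) ^ n| ≤ 1 := by
      rw [abs_pow]
      exact pow_le_one₀ (abs_nonneg _) this
    exact (abs_le.mp h4).1

lemma main (hc : GC0) (μ : Measure ℝ) [IsProbabilityMeasure μ]
    (h2 : Integrable (fun y : ℝ => y ^ 2) μ) {C : ℝ}
    (hC : √(Real.pi * ((∫ y, y ^ 2 ∂μ) / 2)) < Real.pi / 2 * C) :
    ∃ n0 : ℕ, ∀ n : ℕ, n0 ≤ n → Lf (fun t => ph μ (1 / √n * t) ^ n) < C := by
  have hb : 0 ≤ (∫ y, y ^ 2 ∂μ) / 2 := by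
    have : 0 ≤ ∫ y, y ^ 2 ∂μ := integral_nonneg fun y => by positivity
    linarith
  have hT := (int_tendsto hc hb).eventually (gt_mem_nhds hC)
  obtain ⟨n0, hn0⟩ := eventually_atTop.mp hT
  refine ⟨max n0 1, fun n hn => ?_⟩
  have hn1 : 1 ≤ n := le_trans (le_max_right _ _) hn
  have h := hn0 n (le_trans (le_max_left _ _) hn)
  unfold Lf
  rw [hc.1, div_lt_iff₀ (by positivity), mul_comm]
  refine lt_of_le_of_lt ?_ h
  refine integral_mono_of_nonneg ?_ (int_hh hc hb hn1) ?_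
  · filter_upwards with t
    have h4 : |ph μ (1 / √n * t) ^ n| ≤ 1 := by
      rw [abs_pow]
      exact pow_le_one₀ (abs_nonneg _) (ph_abs_le μ _)
    have := (abs_le.mp h4).2
    exact div_nonneg (by linarith) (by positivity)
  · filter_upwards with t
    exact div_le_div_of_nonneg_right (by linarith [le_pow μ h2 hn1 t]) (by positivity)

lemma m2 {θ : ℝ} (h0 : 0 < θ) (h1 : θ < 1 / 2) :
    Real.Gamma (1 + (((2 : ℕ) : ℝ) - 1) * θ) * Real.Gamma (1 - θ) ^ (2 - 1) = 1 + vv θ := by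
  have e : 1 + (((2 : ℕ) : ℝ) - 1) * θ = θ + 1 := by push_cast; ring
  rw [e, Real.Gamma_add_one h0.ne', show (2 - 1 : ℕ) = 1 from rfl, pow_one, mul_assoc,
    Real.Gamma_mul_Gamma_one_sub]
  unfold vv
  ring

/-- Packet Pq-CLT. -/
theorem gCLT : GCLT := by
  intro hN hc hM θ h1 h2
  have h0 : 0 < θ := by linarith
  have hq : 2 < 1 / θ := by
    rw [lt_div_iff₀ h0]
    linarith
  obtain ⟨-, hprob, -⟩ := Pool.Agent.Helper88.NO.goalD1 (1 / θ) hq
  have hp : IsProbabilityMeasure (mu (1 / θ)) := by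
    unfold mu
    exact Measure.isProbabilityMeasure_map (by fun_prop)
  obtain ⟨hi, he⟩ := hM θ h0 h2 2 (by norm_num)
  rw [m2 h0 h2] at he
  refine main hc (mu (1 / θ)) hi ?_
  rw [he]
  have hk := hN.2 θ h1 h2
  have hpi : 0 < √Real.pi := Real.sqrt_pos.mpr Real.pi_pos
  have h3 := mul_lt_mul_of_pos_left hk hpi
  rw [← Real.sqrt_mul Real.pi_pos.le] at h3
  refine lt_of_lt_of_eq h3 ?_
  rw [← mul_assoc, ← Real.sqrt_mul Real.pi_pos.le, Real.rpow_sub (by norm_num : (0:ℝ) < 2),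
    ← Real.sqrt_eq_rpow]
  have h4 : √(Real.pi * (Real.pi / 8)) = Real.pi / 2 / √2 := by
    rw [show Real.pi * (Real.pi / 8) = (Real.pi / 2 / √2) ^ 2 by
      rw [div_pow, Real.sq_sqrt (by norm_num : (0:ℝ) ≤ 2)]
      ring]
    exact Real.sqrt_sq (by positivity)
  rw [h4]
  ring

end Pool.Agent.Helper25.Pq
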